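import Pool.Agent.H52.SUM.Bsm
import Pool.Agent.H31.SW.Pol

/-!
# The exchange of two neighbouring coordinates of a list

`exch`: `k₂` is given at the window `w` by a label over `I` and `k₁` with the precision `M`, and by
a label over `I` with the precision `f₂`, which is exact; `k₁` has exactly the precision `f₁` over
`I` at `w`. Then the derivative of the first label in the direction of `k₁` is at most
`2 ^ (-(f₂ - f₁))` at most points, and at the window `w'`, where `k₁` is known up to `2 ^ (-f₁')`,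
`k₂` is known up to `2 ^ (-min M (f₂ + f₁' - f₁))`.
-/

set_option autoImplicit false

namespace Pool.SWX

open Finset Real
open MvPolynomial (eval)
open Pool.Agent.H49.Ent Pool.Agent.H32.Dense Pool.STK Pool.KA Pool.KSAT Pool.K2S Pool.PB Pool.S6C
open Pool.GEN Pool.GRW Pool.TOP

variable {m J : ℕ}


/-! ### Polynomials of one coordinate -/

/-- The polynomial of one coordinate; the other variables are replaced by numbers. -/
noncomputable def onp (k : Fin m) (b : Option (Fin m) → ℝ)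
    (P : MvPolynomial (Option (Fin m)) ℝ) : Polynomial ℝ :=
  MvPolynomial.aeval (fun o => if o = some k then Polynomial.X else Polynomial.C (b o)) P

theorem onp_eval (k : Fin m) (b : Option (Fin m) → ℝ) (P : MvPolynomial (Option (Fin m)) ℝ)
    (x : ℝ) : (onp k b P).eval x = eval (Function.update b (some k) x) P := by
  have h := MvPolynomial.comp_aeval_apply
    (fun o : Option (Fin m) => if o = some k then (Polynomial.X : Polynomial ℝ)
      else Polynomial.C (b o)) (Polynomial.aeval x : Polynomial ℝ →ₐ[ℝ] ℝ) P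
  rw [Polynomial.coe_aeval_eq_eval] at h
  unfold onp
  rw [h, MvPolynomial.aeval_eq_eval]
  congr 2
  funext o
  by_cases ho : o = some k
  · rw [if_pos ho, ho, Function.update_self, Polynomial.eval_X]
  · rw [if_neg ho, Function.update_of_ne ho, Polynomial.eval_C]

theorem onp_deg (k : Fin m) (b : Option (Fin m) → ℝ) {P : MvPolynomial (Option (Fin m)) ℝ}
    {K : ℕ} (hP : P.totalDegree ≤ K) : (onp k b P).natDegree ≤ K := by
  unfold onp
  rw [MvPolynomial.aeval_def, MvPolynomial.eval₂_eq']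
  refine Polynomial.natDegree_sum_le_of_forall_le _ _ fun d hd => ?_
  refine Polynomial.natDegree_mul_le.trans ?_
  have h0 : (algebraMap ℝ (Polynomial ℝ) (P.coeff d)).natDegree = 0 := Polynomial.natDegree_C _
  rw [h0, zero_add]
  refine (Polynomial.natDegree_prod_le _ _).trans ?_
  have h1 : ∑ j, d j ≤ K := by
    have h2 := MvPolynomial.le_totalDegree hd
    rw [Finsupp.sum_fintype _ _ (fun _ => rfl)] at h2
    exact h2.trans hP
  refine le_trans (Finset.sum_le_sum fun i _ => ?_) h1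
  refine Polynomial.natDegree_pow_le.trans ?_
  have h2 : (if i = some k then (Polynomial.X : Polynomial ℝ)
      else Polynomial.C (b i)).natDegree ≤ 1 := by
    split_ifs
    · exact Polynomial.natDegree_X_le
    · rw [Polynomial.natDegree_C]
      exact Nat.zero_le _
  calc _ ≤ d i * 1 := Nat.mul_le_mul_left _ h2
    _ = d i := mul_one _

/-! ### Counting with a finite label -/

/-- The entropy of an integer which is known up to `L` after a finite label. -/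
theorem CH_lab {Ω T : Type*} [Fintype Ω] {q : Ω → ℝ} (h0 : ∀ ω, 0 ≤ q ω) (h1 : ∑ ω, q ω = 1)
    {N : ℕ} (X : Ω → ℤ) (c : Ω → T) (l : Ω → Fin N) {L : ℝ}
    (h : ∀ ω ω', 0 < q ω → 0 < q ω' → c ω = c ω' → l ω = l ω' →
      |((X ω - X ω' : ℤ) : ℝ)| ≤ L) :
    CH q X c ≤ Real.log N + Real.log (2 * L + 1) := by
  refine (CH_le_add h0 X l c).trans (add_le_add ?_ ?_)
  · refine (CH_le_card h0 h1 l c (fun _ => Finset.univ) fun ω _ => Finset.mem_univ _).trans ?_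
    rw [Ex_const h1, Finset.card_univ, Fintype.card_fin]
  · refine (CH_le_int h0 h1 X _ (fun _ => L) fun ω ω' hω hω' hh => ?_).trans ?_
    · have h2 := Prod.ext_iff.mp hh
      exact h ω ω' hω hω' h2.2 h2.1
    · rw [Ex_const h1]

/-- The floors. -/
theorem fl_le' {J : ℕ} {x y L : ℝ} (h : |x - y| ≤ L) :
    |((⌊(2 : ℝ) ^ J * x⌋ - ⌊(2 : ℝ) ^ J * y⌋ : ℤ) : ℝ)| ≤ 2 ^ J * L + 1 := by
  have hJ0 : (0 : ℝ) < 2 ^ J := by positivity
  refine (Pool.EXW.abs_floor_sub _ _).trans (add_le_add_left ?_ 1)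
  rw [← mul_sub, abs_mul, abs_of_pos hJ0]
  exact mul_le_mul_of_nonneg_left h hJ0.le

/-! ### One family -/

/-- The time and the coordinates in `I`, up to `2 ^ (-J)`, as functions of the data. -/
noncomputable def bas (J : ℕ) {ζ : Type} (u : Fin m → ℤ) (s : ℕ × ζ) : Option (Fin m) → ℝ
  | none => (s.1 : ℝ) / 2 ^ J
  | some i => (u i : ℝ) / 2 ^ J

/-- **One family.** The event is the union of a part on which `k₁` is known and a part on which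
`k₂` is known. -/
theorem exch_fam {F : Fam m J} {B : F.Ω → Prop} {I : Finset (Fin m)} {k₁ k₂ : Fin m}
    (h1 : k₁ ∉ I) {K a₀ a₁ P₁ P₂ P₃ : ℕ} (ha : a₀ ≤ a₁) (ha1 : a₁ ≤ J)
    (hl₁ : LbR 1 F (insert k₁ I) k₂ K a₀ P₁ B) (hl₂ : LbR 1 F I k₂ K a₀ P₂ B)
    (hl₃ : LbR 1 F I k₁ K a₁ P₃ B) {Γ : ℝ} (hΓ : 0 < Γ) :
    ∃ BD GD : F.Ω → Prop, Sub BD B ∧ Sub GD B ∧ (∀ ω, B ω → BD ω ∨ GD ω) ∧
      (0 < Pe F.p BD → ∃ (V : Type) (z : PtT F → V) (z' : LnT F → V),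
        (∀ ω, BD ω → z (ptr F J ω) = z' (slam F a₀ ω)) ∧
        CH (Pool.Agent.H49.Ent.cond F.p BD True) (fun ω => F.X J ω k₁)
          (fun ω => (ub I (F.X J ω), z' (slam F a₀ ω), F.W ω)) ≤
        Real.log ((2 * K + 2 : ℕ)) +
          Real.log (2 * (2 ^ J * (2 * (1 / 2 ^ P₁ + 1 / 2 ^ P₂) / Γ) + 1) + 1)) ∧
      (0 < Pe F.p GD → ∃ (V : Type) (z : PtT F → V) (z' : LnT F → V),
        (∀ ω, GD ω → z (ptr F J ω) = z' (slam F a₁ ω)) ∧
        CH (Pool.Agent.H49.Ent.cond F.p GD True) (fun ω => F.X J ω k₂)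
          (fun ω => (ub I (F.X J ω), z' (slam F a₁ ω), F.W ω)) ≤
        Real.log ((2 * K + 2 : ℕ)) +
          Real.log (2 * (2 ^ J * (2 * (1 / 2 ^ P₁) + Γ * (2 * (1 / 2 ^ P₃))) + 1) + 1)) := by
  classical
  obtain ⟨V₁, z₁, z₁', G₁, L₁⟩ := hl₁
  obtain ⟨V₂, z₂, z₂', G₂, L₂⟩ := hl₂
  obtain ⟨V₃, z₃, z₃', G₃, L₃⟩ := hl₃
  have hJ0 : (0 : ℝ) < 2 ^ J := by positivity
  -- the polynomial
  obtain ⟨pp, hpp⟩ : ∃ pp : (Fin m → ℤ) × (V₁ × V₂) × (ℕ × F.ζ) → Polynomial ℝ,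
      pp = fun c => onp k₁ (bas J c.1 c.2.2) (G₁ c.2.1.1) -
        Polynomial.C (eval (bas J c.1 c.2.2) (G₂ c.2.1.2)) := ⟨_, rfl⟩
  have hdeg : ∀ c, (pp c).natDegree ≤ K := by
    intro c
    rw [hpp]
    change Polynomial.natDegree (_ - Polynomial.C _) ≤ K
    rw [Polynomial.natDegree_sub_C]
    exact onp_deg _ _ (L₁.deg _)
  have hev : ∀ c x, (pp c).eval x = eval (Function.update (bas J c.1 c.2.2) (some k₁) x)
      (G₁ c.2.1.1) - eval (bas J c.1 c.2.2) (G₂ c.2.1.2) := by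
    intro c x
    rw [hpp]
    change Polynomial.eval x (_ - Polynomial.C _) = _
    rw [Polynomial.eval_sub, Polynomial.eval_C, onp_eval]
  -- the data
  obtain ⟨cc, hcc⟩ : ∃ cc : F.Ω → (Fin m → ℤ) × (V₁ × V₂) × (ℕ × F.ζ),
      cc = fun ω => (ub I (F.X J ω), (z₁' (slam F a₀ ω), z₂' (slam F a₀ ω)), F.W ω) := ⟨_, rfl⟩
  -- the corner of the cell
  have hfl : ∀ ω (i : Fin m), |(F.X J ω i : ℝ) / 2 ^ J - F.x ω i| ≤ 1 / 2 ^ J := by
    intro ω i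
    change |((⌊(2 : ℝ) ^ J * F.x ω i⌋ : ℤ) : ℝ) / 2 ^ J - F.x ω i| ≤ _
    have e1 : ((⌊(2 : ℝ) ^ J * F.x ω i⌋ : ℤ) : ℝ) / 2 ^ J - F.x ω i =
        (((⌊(2 : ℝ) ^ J * F.x ω i⌋ : ℤ) : ℝ) - 2 ^ J * F.x ω i) / 2 ^ J := by
      field_simp
    rw [e1, abs_div, abs_of_pos hJ0]
    refine div_le_div_of_nonneg_right ?_ hJ0.le
    have a1 := Int.floor_le ((2 : ℝ) ^ J * F.x ω i)
    have a2 := Int.lt_floor_add_one ((2 : ℝ) ^ J * F.x ω i)
    rw [abs_le]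
    constructor <;> linarith
  obtain ⟨bb, hbb⟩ : ∃ bb : F.Ω → Option (Fin m) → ℝ, bb = fun ω o => match o with
      | none => F.t ω
      | some i => if i ∈ I then (F.X J ω i : ℝ) / 2 ^ J else F.x ω i := ⟨_, rfl⟩
  have hbn : ∀ ω, bb ω none = F.t ω := fun ω => by rw [hbb]
  have hbI : ∀ ω, ∀ i ∈ I, bb ω (some i) = (F.X J ω i : ℝ) / 2 ^ J := fun ω i hi => by
    rw [hbb]
    exact if_pos hi
  have hbO : ∀ ω, ∀ i ∉ I, bb ω (some i) = F.x ω i := fun ω i hi => by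
    rw [hbb]
    exact if_neg hi
  have hball : ∀ ω o, |bb ω o - bt F ω o| ≤ 1 / 2 ^ J := by
    intro ω o
    rcases o with - | i
    · rw [hbn]
      change |F.t ω - F.t ω| ≤ _
      rw [sub_self, abs_zero]
      positivity
    · by_cases hi : i ∈ I
      · rw [hbI ω i hi]
        exact hfl ω i
      · rw [hbO ω i hi]
        change |F.x ω i - F.x ω i| ≤ _
        rw [sub_self, abs_zero]
        positivity
  have hbasn : ∀ ω, bas J (cc ω).1 (cc ω).2.2 none = F.t ω := fun ω => by rw [hcc]; rfl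
  have hbasI : ∀ ω, ∀ i ∈ I, bas J (cc ω).1 (cc ω).2.2 (some i) = (F.X J ω i : ℝ) / 2 ^ J := by
    intro ω i hi
    rw [hcc]
    change ((ub I (F.X J ω) i : ℤ) : ℝ) / 2 ^ J = _
    unfold ub
    rw [if_pos hi]
  have hG₁ : ∀ ω, B ω → |F.x ω k₂ - eval (Function.update (bas J (cc ω).1 (cc ω).2.2) (some k₁)
      (F.x ω k₁)) (G₁ (cc ω).2.1.1)| ≤ 1 / 2 ^ P₁ := by
    intro ω hω
    have h2 := L₁.pos ω hω (bb ω) (hball ω)
    have h3 : eval (bb ω) (G₁ (z₁' (slam F a₀ ω))) = eval (Function.update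
        (bas J (cc ω).1 (cc ω).2.2) (some k₁) (F.x ω k₁)) (G₁ (cc ω).2.1.1) := by
      have h4 : (cc ω).2.1.1 = z₁' (slam F a₀ ω) := by rw [hcc]
      rw [h4]
      refine L₁.dep _ _ _ ?_ fun i hi => ?_
      · rw [hbn, Function.update_of_ne (by simp), hbasn]
      · rcases Finset.mem_insert.1 hi with h5 | h5
        · rw [h5, Function.update_self, hbO ω k₁ h1]
        · have h6 : i ≠ k₁ := fun h => h1 (h ▸ h5)
          rw [Function.update_of_ne (by simpa using h6), hbasI ω i h5, hbI ω i h5]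
    rw [h3] at h2
    exact h2
  have hG₂ : ∀ ω, B ω → |F.x ω k₂ - eval (bas J (cc ω).1 (cc ω).2.2) (G₂ (cc ω).2.1.2)| ≤
      1 / 2 ^ P₂ := by
    intro ω hω
    have h2 := L₂.pos ω hω (bb ω) (hball ω)
    have h3 : eval (bb ω) (G₂ (z₂' (slam F a₀ ω))) = eval (bas J (cc ω).1 (cc ω).2.2)
        (G₂ (cc ω).2.1.2) := by
      have h4 : (cc ω).2.1.2 = z₂' (slam F a₀ ω) := by rw [hcc]
      rw [h4]
      refine L₂.dep _ _ _ ?_ fun i hi => ?_
      · rw [hbn, hbasn]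
      · rw [hbasI ω i hi, hbI ω i hi]
    rw [h3] at h2
    exact h2
  have hsm : ∀ ω, B ω → |(pp (cc ω)).eval (F.x ω k₁)| ≤ 1 / 2 ^ P₁ + 1 / 2 ^ P₂ := by
    intro ω hω
    rw [hev]
    have h2 := hG₁ ω hω
    have h3 := hG₂ ω hω
    rw [abs_le] at h2 h3 ⊢
    constructor <;> linarith [h2.1, h2.2, h3.1, h3.2]
  choose ls hls using fun c => steep (pp c) hΓ (hdeg c)
  choose lf hlf using fun c => flat (pp c) hΓ (hdeg c)
  refine ⟨fun ω => B ω ∧ Γ < |(pp (cc ω)).derivative.eval (F.x ω k₁)|,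
    fun ω => B ω ∧ |(pp (cc ω)).derivative.eval (F.x ω k₁)| ≤ Γ, fun ω hω => hω.1,
    fun ω hω => hω.1, fun ω hω => ?_, fun hpos => ?_, fun hpos => ?_⟩
  · rcases lt_or_ge Γ |(pp (cc ω)).derivative.eval (F.x ω k₁)| with h2 | h2
    · exact Or.inl ⟨hω, h2⟩
    · exact Or.inr ⟨hω, h2⟩
  · -- the steep part
    have hq := isLaw_cond F.isLaw hpos
    have hqA : ∀ ω, 0 < Pool.Agent.H49.Ent.cond F.p (fun ω => B ω ∧
        Γ < |(pp (cc ω)).derivative.eval (F.x ω k₁)|) True ω → B ω ∧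
        Γ < |(pp (cc ω)).derivative.eval (F.x ω k₁)| := fun ω hω =>
      of_eq_true ((cond_pos_iff F.isLaw.nonneg _ True ω).1 hω).2
    refine ⟨V₁ × V₂, fun x => (z₁ x, z₂ x), fun s => (z₁' s, z₂' s), fun ω hω =>
      Prod.ext (L₁.cls ω hω.1) (L₂.cls ω hω.1), ?_⟩
    refine CH_lab hq.nonneg hq.sum_one _ _ (fun ω => ls (cc ω) (F.x ω k₁)) ?_
    intro ω ω' hω hω' hcω hl
    have h2 := hqA ω hω
    have h3 := hqA ω' hω'
    have hcω' : cc ω' = cc ω := by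
      rw [hcc]
      exact hcω.symm
    rw [hcω'] at hl h3
    have h4 := hsm ω' h3.1
    rw [hcω'] at h4
    exact fl_le' (hls (cc ω) _ _ _ (hsm ω h2.1) h4 h2.2 h3.2 hl)
  · -- the flat part
    have hq := isLaw_cond F.isLaw hpos
    have hqA : ∀ ω, 0 < Pool.Agent.H49.Ent.cond F.p (fun ω => B ω ∧
        |(pp (cc ω)).derivative.eval (F.x ω k₁)| ≤ Γ) True ω → B ω ∧
        |(pp (cc ω)).derivative.eval (F.x ω k₁)| ≤ Γ := fun ω hω =>
      of_eq_true ((cond_pos_iff F.isLaw.nonneg _ True ω).1 hω).2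
    have hco : ∀ ω, ((slam F a₁ ω).1, (slam F a₁ ω).2.1, (slam F a₁ ω).2.2 / 2 ^ (a₁ - a₀)) =
        slam F a₀ ω := fun ω => (slam_coarse F ha ha1 ω).symm
    refine ⟨V₁ × V₂ × V₃, fun x => (z₁ x, z₂ x, z₃ x), fun s =>
      (z₁' (s.1, s.2.1, s.2.2 / 2 ^ (a₁ - a₀)), z₂' (s.1, s.2.1, s.2.2 / 2 ^ (a₁ - a₀)), z₃' s),
      fun ω hω => ?_, ?_⟩
    · change _ = (z₁' ((slam F a₁ ω).1, (slam F a₁ ω).2.1, (slam F a₁ ω).2.2 / 2 ^ (a₁ - a₀)),
        z₂' ((slam F a₁ ω).1, (slam F a₁ ω).2.1, (slam F a₁ ω).2.2 / 2 ^ (a₁ - a₀)),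
        z₃' (slam F a₁ ω))
      rw [hco]
      exact Prod.ext (L₁.cls ω hω.1) (Prod.ext (L₂.cls ω hω.1) (L₃.cls ω hω.1))
    refine CH_lab hq.nonneg hq.sum_one _ _ (fun ω => lf (cc ω) (F.x ω k₁)) ?_
    intro ω ω' hω hω' hcω hl
    have h2 := hqA ω hω
    have h3 := hqA ω' hω'
    have hc1 := Prod.ext_iff.mp hcω
    have hc2 := Prod.ext_iff.mp hc1.2
    have hc3 := Prod.ext_iff.mp hc2.1
    have hc4 := Prod.ext_iff.mp hc3.2
    have e1 : z₁' (slam F a₀ ω') = z₁' (slam F a₀ ω) := by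
      have := hc3.1
      simp only at this
      rw [hco, hco] at this
      exact this.symm
    have e2 : z₂' (slam F a₀ ω') = z₂' (slam F a₀ ω) := by
      have := hc4.1
      simp only at this
      rw [hco, hco] at this
      exact this.symm
    have e3 : z₃' (slam F a₁ ω') = z₃' (slam F a₁ ω) := hc4.2.symm
    have hcω' : cc ω' = cc ω := by
      rw [hcc]
      exact Prod.ext hc1.1.symm (Prod.ext (Prod.ext e1 e2) hc2.2.symm)
    have hT : F.t ω' = F.t ω := by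
      unfold Fam.t
      rw [show F.T ω' = F.T ω from (congrArg Prod.fst hc2.2).symm]
    have hX : ∀ i ∈ I, F.X J ω' i = F.X J ω i := by
      intro i hi
      have := congrFun hc1.1 i
      simp only [ub, if_pos hi] at this
      exact this.symm
    rw [hcω'] at hl h3
    -- the coordinate `k₁`
    have h5 : |F.x ω k₁ - F.x ω' k₁| ≤ 2 * (1 / 2 ^ P₃) := by
      have h6 := L₃.pos ω h2.1 (bb ω) (hball ω)
      have h7 := L₃.pos ω' h3.1 (bb ω') (hball ω')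
      have h8 : eval (bb ω') (G₃ (z₃' (slam F a₁ ω'))) = eval (bb ω) (G₃ (z₃' (slam F a₁ ω))) := by
        rw [e3]
        refine L₃.dep _ _ _ ?_ fun i hi => ?_
        · rw [hbn, hbn, hT]
        · rw [hbI ω i hi, hbI ω' i hi, hX i hi]
      rw [h8] at h7
      rw [abs_le] at h6 h7 ⊢
      constructor <;> linarith [h6.1, h6.2, h7.1, h7.2]
    have h6 := hlf (cc ω) _ _ h2.2 h3.2 hl
    rw [hev, hev] at h6
    have h7 := hG₁ ω h2.1
    have h8 := hG₁ ω' h3.1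
    rw [hcω'] at h8
    have h9 : Γ * |F.x ω k₁ - F.x ω' k₁| ≤ Γ * (2 * (1 / 2 ^ P₃)) :=
      mul_le_mul_of_nonneg_left h5 hΓ.le
    refine fl_le' ?_
    rw [abs_le] at h6 h7 h8 ⊢
    constructor <;> linarith [h6.1, h6.2, h7.1, h7.2, h8.1, h8.2]

/-! ### Classes -/

theorem inv_fl (a : ℝ) (J : ℕ) :
    (1 : ℝ) / 2 ^ ⌊a * J⌋₊ ≤ 2 * Real.exp (-(a * (Real.log 2 * J))) := by
  have h1 : a * J - 1 ≤ (⌊a * J⌋₊ : ℝ) := by
    have := Nat.lt_floor_add_one (a * (J : ℝ))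
    linarith
  have h2 : (2 : ℝ) ^ ⌊a * J⌋₊ = Real.exp ((⌊a * J⌋₊ : ℝ) * Real.log 2) := by
    rw [← Real.rpow_natCast, Real.rpow_def_of_pos two_pos, mul_comm]
  have hl : 0 < Real.log 2 := Real.log_pos one_lt_two
  rw [h2, one_div, ← Real.exp_neg]
  have h3 : (2 : ℝ) = Real.exp (Real.log 2) := (Real.exp_log two_pos).symm
  calc Real.exp (-((⌊a * J⌋₊ : ℝ) * Real.log 2)) ≤
        Real.exp (Real.log 2 + -(a * (Real.log 2 * J))) := by
        refine Real.exp_le_exp.2 ?_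
        have := mul_le_mul_of_nonneg_right h1 hl.le
        nlinarith only [this]
    _ = 2 * Real.exp (-(a * (Real.log 2 * J))) := by
        rw [Real.exp_add, ← h3]

theorem log_bd {x E : ℝ} (hx : 0 ≤ x) (h : x ≤ 8 * Real.exp E) (hE : 0 ≤ E) :
    Real.log (2 * (x + 1) + 1) ≤ Real.log 19 + E := by
  have h1 : 1 ≤ Real.exp E := Real.one_le_exp hE
  calc Real.log (2 * (x + 1) + 1) ≤ Real.log (19 * Real.exp E) :=
        Real.log_le_log (by linarith) (by linarith)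
    _ = Real.log 19 + E := by
        rw [Real.log_mul (by norm_num) (Real.exp_pos _).ne', Real.log_exp]

/-- **A label bounds the number of an exact coordinate.** -/
theorem lab_le {S : PCl m} (hne : S.Ne) (hpos : Bas S (fun _ F A => 0 < Pe F.p A))
    {I : Finset (Fin m)} {k : Fin m} {w f f' : ℝ} (hf : f ≤ 1)
    (hb : ∀ h : ℝ, 0 < h → ∃ K : ℕ, ∀ τ : ℝ, 0 < τ → Bas S (fun J F A =>
      ∃ B : F.Ω → Prop, Sub B A ∧ Real.exp (-(τ * J)) * Pe F.p A ≤ Pe F.p B ∧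
        LbR 1 F I k K ⌊w * J⌋₊ ⌊(f - h) * J⌋₊ B))
    (he : ∀ ρ : ℝ, 0 < ρ → Bas S (fun J F A => ∀ (V : Type) (z : PtT F → V) (z' : LnT F → V),
      (∀ ω, A ω → z (ptr F J ω) = z' (slam F ⌊w * J⌋₊ ω)) →
      (1 - f' - ρ) * Real.log 2 * J ≤ CH (Pool.Agent.H49.Ent.cond F.p A True)
        (fun ω => F.X J ω k) (fun ω => (ub I (F.X J ω), z' (slam F ⌊w * J⌋₊ ω), F.W ω)))) :
    f ≤ f' := by
  by_contra hcon
  push Not at hcon
  obtain ⟨D, hD⟩ : ∃ D, D = f - f' := ⟨_, rfl⟩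
  have hD0 : 0 < D := by rw [hD]; linarith
  have hl2 : 1 / 2 < Real.log 2 := by
    have := Real.log_two_gt_d9
    linarith only [this]
  have hl21 : Real.log 2 ≤ 1 := by
    have := Real.log_two_lt_d9
    linarith only [this]
  obtain ⟨κ, hκ, k1⟩ := Pool.ZFN.bas_sh ((he (D / 4) (by linarith)).and hpos)
  obtain ⟨K, hK⟩ := hb (D / 4) (by linarith)
  obtain ⟨J₁, hJ₁⟩ := exists_nat_gt (3 / (D / 4))
  refine bas_no hne ((k1.and (hK κ hκ)).mono J₁ ?_)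
  rintro J hJ F A ⟨k2, B, k3, k4, k5⟩
  have hJ0 : (0 : ℝ) ≤ J := Nat.cast_nonneg J
  have hJ1 : (J₁ : ℝ) ≤ J := by exact_mod_cast hJ
  have hJ2 := hJ₁.trans_le hJ1
  rw [div_lt_iff₀ (by linarith)] at hJ2
  obtain ⟨k6, hB⟩ := k2 B k3 k4
  obtain ⟨V, z, z', G, L⟩ := k5
  have hq := isLaw_cond F.isLaw hB
  have hqA : ∀ ω, 0 < Pool.Agent.H49.Ent.cond F.p B True ω → B ω := fun ω hω =>
    of_eq_true ((cond_pos_iff F.isLaw.nonneg B True ω).1 hω).2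
  have h4 := (k6 V z z' L.cls).trans (Pool.BSM.one_cellR le_rfl L
    (Pool.GEN.fl_le (by linarith) J) hq hqA fun ω ω' _ _ hc => by
      have m1 := Prod.ext_iff.mp hc
      have m2 := Prod.ext_iff.mp m1.2
      refine ⟨fun i hi => ?_, m2.1, congrArg Prod.fst m2.2⟩
      have := congrFun m1.1 i
      simp only [ub, if_pos hi] at this
      exact this)
  have a1 := Nat.lt_floor_add_one ((f - D / 4) * (J : ℝ))
  have a2 : ((J : ℝ) - ⌊(f - D / 4) * J⌋₊) ≤ (1 - f + D / 4) * J + 1 := by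
    linarith only [a1]
  have a4 := mul_le_mul_of_nonneg_right a2 (show (0 : ℝ) ≤ Real.log 2 by linarith)
  have a5 : (1 - f' - D / 4) * Real.log 2 * J = (1 - f + D / 4) * J * Real.log 2 +
      D / 2 * J * Real.log 2 := by
    rw [hD]
    ring
  have a6 : D / 2 * J * (1 / 2) ≤ D / 2 * J * Real.log 2 :=
    mul_le_mul_of_nonneg_left hl2.le (by positivity)
  linarith only [h4, a4, a5, a6, hJ2, hl21]

theorem exch₀ {S : PCl m} (hne : S.Ne) (hpos : Bas S (fun _ F A => 0 < Pe F.p A))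
    {I : Finset (Fin m)} {k₁ k₂ : Fin m} (h1 : k₁ ∉ I) {w w' f₁ f₂ M f₁' f₂' : ℝ}
    (hww : w ≤ w') (hw1 : w' ≤ 1) (hM : M ≤ 1) (hf₁' : f₁' ≤ 1) (hfM : f₂ ≤ M)
    (ha : ∀ h : ℝ, 0 < h → ∃ K : ℕ, ∀ τ : ℝ, 0 < τ → Bas S (fun J F A =>
      ∃ B : F.Ω → Prop, Sub B A ∧ Real.exp (-(τ * J)) * Pe F.p A ≤ Pe F.p B ∧
        LbR 1 F (insert k₁ I) k₂ K ⌊w * J⌋₊ ⌊(M - h) * J⌋₊ B))
    (hb : ∀ h : ℝ, 0 < h → ∃ K : ℕ, ∀ τ : ℝ, 0 < τ → Bas S (fun J F A =>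
      ∃ B : F.Ω → Prop, Sub B A ∧ Real.exp (-(τ * J)) * Pe F.p A ≤ Pe F.p B ∧
        LbR 1 F I k₂ K ⌊w * J⌋₊ ⌊(f₂ - h) * J⌋₊ B))
    (hc : ∀ h : ℝ, 0 < h → ∃ K : ℕ, ∀ τ : ℝ, 0 < τ → Bas S (fun J F A =>
      ∃ B : F.Ω → Prop, Sub B A ∧ Real.exp (-(τ * J)) * Pe F.p A ≤ Pe F.p B ∧
        LbR 1 F I k₁ K ⌊w' * J⌋₊ ⌊(f₁' - h) * J⌋₊ B))
    (hd : ∀ ρ : ℝ, 0 < ρ → Bas S (fun J F A => ∀ (V : Type) (z : PtT F → V) (z' : LnT F → V),
      (∀ ω, A ω → z (ptr F J ω) = z' (slam F ⌊w * J⌋₊ ω)) →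
      (1 - f₁ - ρ) * Real.log 2 * J ≤ CH (Pool.Agent.H49.Ent.cond F.p A True)
        (fun ω => F.X J ω k₁) (fun ω => (ub I (F.X J ω), z' (slam F ⌊w * J⌋₊ ω), F.W ω))))
    (he : ∀ ρ : ℝ, 0 < ρ → Bas S (fun J F A => ∀ (V : Type) (z : PtT F → V) (z' : LnT F → V),
      (∀ ω, A ω → z (ptr F J ω) = z' (slam F ⌊w' * J⌋₊ ω)) →
      (1 - f₂' - ρ) * Real.log 2 * J ≤ CH (Pool.Agent.H49.Ent.cond F.p A True)
        (fun ω => F.X J ω k₂) (fun ω => (ub I (F.X J ω), z' (slam F ⌊w' * J⌋₊ ω), F.W ω)))) :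
    min M (f₂ + f₁' - f₁) ≤ f₂' := by
  by_contra hcon
  push Not at hcon
  have hmono : f₂ ≤ f₂' := by
    refine lab_le hne hpos (w := w') (hfM.trans hM) (fun h hh => ?_) he
    obtain ⟨K, hK⟩ := hb h hh
    refine ⟨K, fun τ hτ => (hK τ hτ).mono 0 ?_⟩
    rintro J - F A ⟨B, k1, k2, k3⟩
    exact ⟨B, k1, k2, k3.win' (Nat.floor_le_floor (mul_le_mul_of_nonneg_right hww
      (Nat.cast_nonneg J)))⟩
  obtain ⟨D, hD⟩ : ∃ D, D = min M (f₂ + f₁' - f₁) - f₂' := ⟨_, rfl⟩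
  have hD0 : 0 < D := by rw [hD]; linarith
  have hD1 : D ≤ M - f₂' := by
    rw [hD]
    linarith [min_le_left M (f₂ + f₁' - f₁)]
  have hD2 : D ≤ f₂ + f₁' - f₁ - f₂' := by
    rw [hD]
    linarith [min_le_right M (f₂ + f₁' - f₁)]
  have hl2 : 1 / 2 < Real.log 2 := by
    have := Real.log_two_gt_d9
    linarith only [this]
  obtain ⟨κ, hκ, g1⟩ := Pool.ZFN.bas_sh (((hd (D / 16) (by linarith)).and
    (he (D / 16) (by linarith))).and hpos)
  obtain ⟨K₁, hK₁⟩ := ha (D / 16) (by linarith)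
  obtain ⟨K₂, hK₂⟩ := hb (D / 16) (by linarith)
  obtain ⟨K₃, hK₃⟩ := hc (D / 16) (by linarith)
  obtain ⟨K, hK⟩ : ∃ K, K = max K₁ (max K₂ K₃) := ⟨_, rfl⟩
  have hKa : K₁ ≤ K := by rw [hK]; exact le_max_left _ _
  have hKb : K₂ ≤ K := by rw [hK]; exact (le_max_left _ _).trans (le_max_right _ _)
  have hKc : K₃ ≤ K := by rw [hK]; exact (le_max_right _ _).trans (le_max_right _ _)
  obtain ⟨Φ, hΦ⟩ : ∃ Φ : Fin 3 → Stat m, Φ = fun j J F B => match j with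
      | 0 => LbR 1 F (insert k₁ I) k₂ K ⌊w * J⌋₊ ⌊(M - D / 16) * J⌋₊ B
      | 1 => LbR 1 F I k₂ K ⌊w * J⌋₊ ⌊(f₂ - D / 16) * J⌋₊ B
      | 2 => LbR 1 F I k₁ K ⌊w' * J⌋₊ ⌊(f₁' - D / 16) * J⌋₊ B := ⟨_, rfl⟩
  have g2 := Pool.BSM.bas_iter (S := S) (Φ := Φ) (fun j J F A B hB hh => by
      rw [hΦ] at hh ⊢
      match j with
      | 0 => exact LbR.sub hB hh
      | 1 => exact LbR.sub hB hh
      | 2 => exact LbR.sub hB hh) (fun j τ hτ => by
      rw [hΦ]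
      match j with
      | 0 =>
        refine (hK₁ τ hτ).mono 0 ?_
        rintro J - F A ⟨B, k1, k2, k3⟩
        exact ⟨B, k1, k2, k3.wk (Finset.Subset.refl _) hKa le_rfl⟩
      | 1 =>
        refine (hK₂ τ hτ).mono 0 ?_
        rintro J - F A ⟨B, k1, k2, k3⟩
        exact ⟨B, k1, k2, k3.wk (Finset.Subset.refl _) hKb le_rfl⟩
      | 2 =>
        refine (hK₃ τ hτ).mono 0 ?_
        rintro J - F A ⟨B, k1, k2, k3⟩
        exact ⟨B, k1, k2, k3.wk (Finset.Subset.refl _) hKc le_rfl⟩) (half_pos hκ)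
  obtain ⟨C, hC⟩ : ∃ C : ℝ, C = Real.log ((2 * K + 2 : ℕ)) + Real.log 19 := ⟨_, rfl⟩
  obtain ⟨J₁, hJ₁⟩ := exists_nat_gt (C / (D / 16))
  obtain ⟨J₂, hJ₂⟩ := exists_nat_gt (1 / (κ / 2))
  refine bas_no hne ((g1.and g2).mono (max J₁ J₂) ?_)
  rintro J hJ F A ⟨k1, B, k2, k3, k4⟩
  have hJ0 : (0 : ℝ) ≤ J := Nat.cast_nonneg J
  have hJ1 : (J₁ : ℝ) ≤ J := by exact_mod_cast (le_max_left _ _).trans hJ
  have hJ2 : (J₂ : ℝ) ≤ J := by exact_mod_cast (le_max_right _ _).trans hJ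
  replace hJ1 := hJ₁.trans_le hJ1
  replace hJ2 := hJ₂.trans_le hJ2
  rw [div_lt_iff₀ (by linarith)] at hJ1 hJ2
  rw [hΦ] at k4
  have l1 : LbR 1 F (insert k₁ I) k₂ K ⌊w * J⌋₊ ⌊(M - D / 16) * J⌋₊ B := k4 0
  have l2 : LbR 1 F I k₂ K ⌊w * J⌋₊ ⌊(f₂ - D / 16) * J⌋₊ B := k4 1
  have l3 : LbR 1 F I k₁ K ⌊w' * J⌋₊ ⌊(f₁' - D / 16) * J⌋₊ B := k4 2
  obtain ⟨Γ, hΓ⟩ : ∃ Γ, Γ = Real.exp ((f₁ - f₂ + D / 4) * (Real.log 2 * J)) := ⟨_, rfl⟩
  have hΓ0 : 0 < Γ := by rw [hΓ]; exact Real.exp_pos _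
  obtain ⟨BD, GD, m1, m2, m3, m4, m5⟩ := exch_fam h1 (Nat.floor_le_floor
    (mul_le_mul_of_nonneg_right hww hJ0)) (Pool.GEN.fl_le hw1 J) l1 l2 l3 hΓ0
  have hPe := Pool.K2S.Pe_or F.isLaw m3
  have hA0 : 0 ≤ Pe F.p A := Pe_nonneg F.isLaw A
  have hhalf : ∀ B' : F.Ω → Prop, Pe F.p B ≤ 2 * Pe F.p B' →
      Real.exp (-(κ * J)) * Pe F.p A ≤ Pe F.p B' := by
    intro B' hB'
    have e1 : Real.exp (-(κ * J)) = Real.exp (-(κ / 2 * J)) * Real.exp (-(κ / 2 * J)) := by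
      rw [← Real.exp_add]
      congr 1
      ring
    have e2 : 2 * Real.exp (-(κ / 2 * J)) ≤ 1 := by
      have e3 : 2 ≤ Real.exp (κ / 2 * J) := by
        have := Real.add_one_le_exp (κ / 2 * (J : ℝ))
        linarith
      have e4 := mul_le_mul_of_nonneg_right e3 (Real.exp_pos (-(κ / 2 * (J : ℝ)))).le
      rwa [← Real.exp_add, add_neg_cancel, Real.exp_zero] at e4
    have e5 : 0 ≤ Real.exp (-(κ / 2 * J)) * Pe F.p A := by positivity
    rw [e1]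
    nlinarith only [e2, e5, k3, hB', mul_le_mul_of_nonneg_right e2 e5]
  have hexp2 : (2 : ℝ) ^ J = Real.exp (Real.log 2 * J) := by
    rw [Real.exp_mul, Real.exp_log two_pos, Real.rpow_natCast]
  have hLJ : 0 ≤ Real.log 2 * (J : ℝ) := mul_nonneg (by linarith) hJ0
  have i1 := inv_fl (M - D / 16) J
  have i2 := inv_fl (f₂ - D / 16) J
  have i3 := inv_fl (f₁' - D / 16) J
  have hend : C < D / 8 * (Real.log 2 * J) := by
    have : D / 8 * (1 / 2 * J) ≤ D / 8 * (Real.log 2 * J) :=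
      mul_le_mul_of_nonneg_left (mul_le_mul_of_nonneg_right hl2.le hJ0) (by linarith)
    linarith
  rcases le_or_gt (Pe F.p B) (2 * Pe F.p BD) with hcase | hcase
  · -- the steep part is large
    obtain ⟨⟨n1, -⟩, n2⟩ := k1 BD (fun ω hω => k2 ω (m1 ω hω)) (hhalf BD hcase)
    obtain ⟨V, z, z', n3, n4⟩ := m4 n2
    have n5 := (n1 V z z' n3).trans n4
    obtain ⟨E, hE⟩ : ∃ E, E = (1 - f₁ + D / 16 - D / 4) * (Real.log 2 * J) := ⟨_, rfl⟩
    have hE0 : 0 ≤ E := by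
      rw [hE]
      exact mul_nonneg (by linarith) hLJ
    have hx : (2 : ℝ) ^ J * (2 * (1 / 2 ^ ⌊(M - D / 16) * J⌋₊ + 1 / 2 ^ ⌊(f₂ - D / 16) * J⌋₊) / Γ) ≤
        8 * Real.exp E := by
      have e1 : Real.exp (-((M - D / 16) * (Real.log 2 * J))) ≤
          Real.exp (-((f₂ - D / 16) * (Real.log 2 * J))) := by
        refine Real.exp_le_exp.2 ?_
        nlinarith only [mul_le_mul_of_nonneg_right hfM hLJ]
      have e2 : 2 * (1 / 2 ^ ⌊(M - D / 16) * J⌋₊ + 1 / 2 ^ ⌊(f₂ - D / 16) * J⌋₊) ≤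
          8 * Real.exp (-((f₂ - D / 16) * (Real.log 2 * J))) := by linarith
      calc _ ≤ (2 : ℝ) ^ J * (8 * Real.exp (-((f₂ - D / 16) * (Real.log 2 * J))) / Γ) :=
            mul_le_mul_of_nonneg_left (div_le_div_of_nonneg_right e2 hΓ0.le) (by positivity)
        _ = 8 * Real.exp E := by
            rw [hexp2, hΓ, hE, div_eq_mul_inv, ← Real.exp_neg]
            rw [show Real.exp (Real.log 2 * J) * (8 * Real.exp (-((f₂ - D / 16) *
              (Real.log 2 * J))) * Real.exp (-((f₁ - f₂ + D / 4) * (Real.log 2 * J)))) =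
              8 * (Real.exp (Real.log 2 * J) * Real.exp (-((f₂ - D / 16) *
              (Real.log 2 * J))) * Real.exp (-((f₁ - f₂ + D / 4) * (Real.log 2 * J)))) by ring,
              ← Real.exp_add, ← Real.exp_add]
            congr 2
            ring
    have n6 := log_bd (by positivity) hx hE0
    have n7 : (1 - f₁ - D / 16) * Real.log 2 * J = E + D / 8 * (Real.log 2 * J) := by
      rw [hE]
      ring
    linarith only [n5, n6, n7, hend, hC]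
  · -- the flat part is large
    obtain ⟨⟨-, n1⟩, n2⟩ := k1 GD (fun ω hω => k2 ω (m2 ω hω)) (hhalf GD (by linarith))
    obtain ⟨V, z, z', n3, n4⟩ := m5 n2
    have n5 := (n1 V z z' n3).trans n4
    obtain ⟨E, hE⟩ : ∃ E, E = (1 - f₂' - D + D / 16 + D / 4) * (Real.log 2 * J) := ⟨_, rfl⟩
    have hE0 : 0 ≤ E := by
      rw [hE]
      exact mul_nonneg (by linarith) hLJ
    have hx : (2 : ℝ) ^ J * (2 * (1 / 2 ^ ⌊(M - D / 16) * J⌋₊) +
        Γ * (2 * (1 / 2 ^ ⌊(f₁' - D / 16) * J⌋₊))) ≤ 8 * Real.exp E := by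
      have e1 : (2 : ℝ) ^ J * Real.exp (-((M - D / 16) * (Real.log 2 * J))) ≤ Real.exp E := by
        rw [hexp2, ← Real.exp_add, hE]
        refine Real.exp_le_exp.2 ?_
        have := mul_le_mul_of_nonneg_right (show 1 - (M - D / 16) ≤
          1 - f₂' - D + D / 16 + D / 4 by linarith) hLJ
        linarith only [this]
      have e2 : (2 : ℝ) ^ J * (Γ * Real.exp (-((f₁' - D / 16) * (Real.log 2 * J)))) ≤
          Real.exp E := by
        rw [hexp2, hΓ, ← Real.exp_add, ← Real.exp_add, hE]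
        refine Real.exp_le_exp.2 ?_
        have := mul_le_mul_of_nonneg_right (show 1 + (f₁ - f₂ + D / 4) - (f₁' - D / 16) ≤
          1 - f₂' - D + D / 16 + D / 4 by linarith) hLJ
        linarith only [this]
      have e3 : (2 : ℝ) ^ J * (2 * (1 / 2 ^ ⌊(M - D / 16) * J⌋₊)) ≤ 2 ^ J *
          (2 * (2 * Real.exp (-((M - D / 16) * (Real.log 2 * J))))) :=
        mul_le_mul_of_nonneg_left (by linarith) (by positivity)
      have e4 : (2 : ℝ) ^ J * (Γ * (2 * (1 / 2 ^ ⌊(f₁' - D / 16) * J⌋₊))) ≤ 2 ^ J *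
          (Γ * (2 * (2 * Real.exp (-((f₁' - D / 16) * (Real.log 2 * J)))))) :=
        mul_le_mul_of_nonneg_left (mul_le_mul_of_nonneg_left (by linarith) hΓ0.le) (by positivity)
      rw [mul_add]
      linarith only [e1, e2, e3, e4]
    have n6 := log_bd (by positivity) hx hE0
    have n7 : (1 - f₂' - D / 16) * Real.log 2 * J = E + 5 * (D / 8 * (Real.log 2 * J)) := by
      rw [hE]
      ring
    have n8 : 0 ≤ D / 8 * (Real.log 2 * J) := by positivity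
    linarith only [n5, n6, n7, n8, hend, hC]

/-- **The exchange of two neighbouring coordinates of a list.** -/
theorem exch {S : PCl m} (hne : S.Ne) (hpos : Bas S (fun _ F A => 0 < Pe F.p A))
    {I : Finset (Fin m)} {k₁ k₂ : Fin m} (h1 : k₁ ∉ I) {w w' f₁ f₂ M f₁' f₂' : ℝ}
    (hww : w ≤ w') (hw1 : w' ≤ 1) (hM : M ≤ 1) (hf₂ : f₂ ≤ 1) (hf₁' : f₁' ≤ 1)
    (ha : ∀ h : ℝ, 0 < h → ∃ K : ℕ, ∀ τ : ℝ, 0 < τ → Bas S (fun J F A =>
      ∃ B : F.Ω → Prop, Sub B A ∧ Real.exp (-(τ * J)) * Pe F.p A ≤ Pe F.p B ∧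
        LbR 1 F (insert k₁ I) k₂ K ⌊w * J⌋₊ ⌊(M - h) * J⌋₊ B))
    (hb : ∀ h : ℝ, 0 < h → ∃ K : ℕ, ∀ τ : ℝ, 0 < τ → Bas S (fun J F A =>
      ∃ B : F.Ω → Prop, Sub B A ∧ Real.exp (-(τ * J)) * Pe F.p A ≤ Pe F.p B ∧
        LbR 1 F I k₂ K ⌊w * J⌋₊ ⌊(f₂ - h) * J⌋₊ B))
    (hc : ∀ h : ℝ, 0 < h → ∃ K : ℕ, ∀ τ : ℝ, 0 < τ → Bas S (fun J F A =>
      ∃ B : F.Ω → Prop, Sub B A ∧ Real.exp (-(τ * J)) * Pe F.p A ≤ Pe F.p B ∧
        LbR 1 F I k₁ K ⌊w' * J⌋₊ ⌊(f₁' - h) * J⌋₊ B))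
    (hd : ∀ ρ : ℝ, 0 < ρ → Bas S (fun J F A => ∀ (V : Type) (z : PtT F → V) (z' : LnT F → V),
      (∀ ω, A ω → z (ptr F J ω) = z' (slam F ⌊w * J⌋₊ ω)) →
      (1 - f₁ - ρ) * Real.log 2 * J ≤ CH (Pool.Agent.H49.Ent.cond F.p A True)
        (fun ω => F.X J ω k₁) (fun ω => (ub I (F.X J ω), z' (slam F ⌊w * J⌋₊ ω), F.W ω))))
    (he : ∀ ρ : ℝ, 0 < ρ → Bas S (fun J F A => ∀ (V : Type) (z : PtT F → V) (z' : LnT F → V),
      (∀ ω, A ω → z (ptr F J ω) = z' (slam F ⌊w' * J⌋₊ ω)) →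
      (1 - f₂' - ρ) * Real.log 2 * J ≤ CH (Pool.Agent.H49.Ent.cond F.p A True)
        (fun ω => F.X J ω k₂) (fun ω => (ub I (F.X J ω), z' (slam F ⌊w' * J⌋₊ ω), F.W ω)))) :
    min M (f₂ + f₁' - f₁) ≤ f₂' := by
  rcases le_or_gt f₂ M with hfM | hfM
  · exact exch₀ hne hpos h1 hww hw1 hM hf₁' hfM ha hb hc hd he
  · refine (min_le_min_right _ hfM.le).trans ?_
    refine exch₀ hne hpos h1 hww hw1 hf₂ hf₁' le_rfl (fun h hh => ?_) hb hc hd he
    obtain ⟨K, hK⟩ := hb h hh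
    refine ⟨K, fun τ hτ => (hK τ hτ).mono 0 ?_⟩
    rintro J - F A ⟨B, k1, k2, k3⟩
    exact ⟨B, k1, k2, k3.wk (Finset.subset_insert _ _) le_rfl le_rfl⟩

end Pool.SWX
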