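import Pool.Agent.H25.SW.Lip

/-!
# The exchange of two neighbouring coordinates, from cells

`exchC`: the exchange inequality `Pool.SWX.exch`, where the second label of `k₂` and the label of
`k₁` at the window `w'` are replaced by cells.
-/

set_option autoImplicit false

namespace Pool.SWX

open Finset Real
open MvPolynomial (eval)
open Pool.Agent.H49.Ent Pool.Agent.H32.Dense Pool.STK Pool.KA Pool.KSAT Pool.K2S Pool.PB Pool.S6C
open Pool.GEN Pool.GRW Pool.TOP Pool.BSM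

variable {m J : ℕ}

theorem log_bd' {x E : ℝ} (hx : 0 ≤ x) (h : x ≤ 12 * Real.exp E) (hE : 0 ≤ E) :
    Real.log (2 * (x + 1) + 1) ≤ Real.log 27 + E := by
  have h1 : 1 ≤ Real.exp E := Real.one_le_exp hE
  calc Real.log (2 * (x + 1) + 1) ≤ Real.log (27 * Real.exp E) :=
        Real.log_le_log (by linarith) (by linarith)
    _ = Real.log 27 + E := by
        rw [Real.log_mul (by norm_num) (Real.exp_pos _).ne', Real.log_exp]

/-- **Cells bound the number of an exact coordinate.** -/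
theorem cel_le {S : PCl m} (hne : S.Ne) (hpos : Bas S (fun _ F A => 0 < Pe F.p A))
    {I : Finset (Fin m)} {k : Fin m} {w f f' : ℝ} (hf : f ≤ 1)
    (hb : ∀ h : ℝ, 0 < h → ∀ τ : ℝ, 0 < τ → Bas S (fun J F A =>
      ∃ B : F.Ω → Prop, Sub B A ∧ Real.exp (-(τ * J)) * Pe F.p A ≤ Pe F.p B ∧
        Cel F I k ⌊w * J⌋₊ ⌊(f - h) * J⌋₊ B))
    (he : ∀ ρ : ℝ, 0 < ρ → Bas S (fun J F A => ∀ (V : Type) (z : PtT F → V) (z' : LnT F → V),
      (∀ ω, A ω → z (ptr F J ω) = z' (slam F ⌊w * J⌋₊ ω)) →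
      (1 - f' - ρ) * Real.log 2 * J ≤ CH (Pool.Agent.H49.Ent.cond F.p A True)
        (fun ω => F.X J ω k) (fun ω => (ub I (F.X J ω), z' (slam F ⌊w * J⌋₊ ω), F.W ω)))) :
    f ≤ f' := by
  by_contra hcon
  push Not at hcon
  obtain ⟨D, hD⟩ : ∃ D, D = f - f' := ⟨_, rfl⟩
  have hD0 : 0 < D := by rw [hD]; linarith
  have hl2 : 1 / 2 < Real.log 2 := by
    have := Real.log_two_gt_d9
    linarith only [this]
  have hl21 : Real.log 2 ≤ 1 := by
    have := Real.log_two_lt_d9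
    linarith only [this]
  obtain ⟨κ, hκ, k1⟩ := Pool.ZFN.bas_sh ((he (D / 4) (by linarith)).and hpos)
  obtain ⟨J₁, hJ₁⟩ := exists_nat_gt (3 / (D / 4))
  refine bas_no hne ((k1.and (hb (D / 4) (by linarith) κ hκ)).mono J₁ ?_)
  rintro J hJ F A ⟨k2, B, k3, k4, k5⟩
  have hJ0 : (0 : ℝ) ≤ J := Nat.cast_nonneg J
  have hJ1 : (J₁ : ℝ) ≤ J := by exact_mod_cast hJ
  have hJ2 := hJ₁.trans_le hJ1
  rw [div_lt_iff₀ (by linarith)] at hJ2
  obtain ⟨k6, hB⟩ := k2 B k3 k4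
  obtain ⟨V, z, z', L, L'⟩ := k5
  have hq := isLaw_cond F.isLaw hB
  have hqA : ∀ ω, 0 < Pool.Agent.H49.Ent.cond F.p B True ω → B ω := fun ω hω =>
    of_eq_true ((cond_pos_iff F.isLaw.nonneg B True ω).1 hω).2
  have h4 := (k6 V z z' L).trans (cel_ent L'
    (Pool.GEN.fl_le (by linarith) J) hq hqA fun ω ω' _ _ hc => by
      have m1 := Prod.ext_iff.mp hc
      have m2 := Prod.ext_iff.mp m1.2
      refine ⟨fun i hi => ?_, m2.1, congrArg Prod.fst m2.2⟩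
      have := congrFun m1.1 i
      simp only [ub, if_pos hi] at this
      exact this)
  have a1 := Nat.lt_floor_add_one ((f - D / 4) * (J : ℝ))
  have a2 : ((J : ℝ) - ⌊(f - D / 4) * J⌋₊) ≤ (1 - f + D / 4) * J + 1 := by
    linarith only [a1]
  have a4 := mul_le_mul_of_nonneg_right a2 (show (0 : ℝ) ≤ Real.log 2 by linarith)
  have a5 : (1 - f' - D / 4) * Real.log 2 * J = (1 - f + D / 4) * J * Real.log 2 +
      D / 2 * J * Real.log 2 := by
    rw [hD]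
    ring
  have a6 : D / 2 * J * (1 / 2) ≤ D / 2 * J * Real.log 2 :=
    mul_le_mul_of_nonneg_left hl2.le (by positivity)
  linarith only [h4, a4, a5, a6, hJ2, hl21]

/-- **The exchange of two neighbouring coordinates of a list**, from cells. -/
theorem exchC {S : PCl m} (hne : S.Ne) (hpos : Bas S (fun _ F A => 0 < Pe F.p A))
    {I : Finset (Fin m)} {k₁ k₂ : Fin m} (h1 : k₁ ∉ I) {w w' f₁ f₂ M f₁' f₂' : ℝ}
    (hww : w ≤ w') (hw1 : w' ≤ 1) (hM : M ≤ 1) (hf₂ : f₂ ≤ 1) (hf₁' : f₁' ≤ 1)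
    (ha : ∀ h : ℝ, 0 < h → ∃ K : ℕ, ∀ τ : ℝ, 0 < τ → Bas S (fun J F A =>
      ∃ B : F.Ω → Prop, Sub B A ∧ Real.exp (-(τ * J)) * Pe F.p A ≤ Pe F.p B ∧
        LbR 1 F (insert k₁ I) k₂ K ⌊w * J⌋₊ ⌊(M - h) * J⌋₊ B))
    (hb : ∀ h : ℝ, 0 < h → ∀ τ : ℝ, 0 < τ → Bas S (fun J F A =>
      ∃ B : F.Ω → Prop, Sub B A ∧ Real.exp (-(τ * J)) * Pe F.p A ≤ Pe F.p B ∧
        Cel F I k₂ ⌊w * J⌋₊ ⌊(f₂ - h) * J⌋₊ B))
    (hc : ∀ h : ℝ, 0 < h → ∀ τ : ℝ, 0 < τ → Bas S (fun J F A =>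
      ∃ B : F.Ω → Prop, Sub B A ∧ Real.exp (-(τ * J)) * Pe F.p A ≤ Pe F.p B ∧
        Cel F I k₁ ⌊w' * J⌋₊ ⌊(f₁' - h) * J⌋₊ B))
    (hd : ∀ ρ : ℝ, 0 < ρ → Bas S (fun J F A => ∀ (V : Type) (z : PtT F → V) (z' : LnT F → V),
      (∀ ω, A ω → z (ptr F J ω) = z' (slam F ⌊w * J⌋₊ ω)) →
      (1 - f₁ - ρ) * Real.log 2 * J ≤ CH (Pool.Agent.H49.Ent.cond F.p A True)
        (fun ω => F.X J ω k₁) (fun ω => (ub I (F.X J ω), z' (slam F ⌊w * J⌋₊ ω), F.W ω))))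
    (he : ∀ ρ : ℝ, 0 < ρ → Bas S (fun J F A => ∀ (V : Type) (z : PtT F → V) (z' : LnT F → V),
      (∀ ω, A ω → z (ptr F J ω) = z' (slam F ⌊w' * J⌋₊ ω)) →
      (1 - f₂' - ρ) * Real.log 2 * J ≤ CH (Pool.Agent.H49.Ent.cond F.p A True)
        (fun ω => F.X J ω k₂) (fun ω => (ub I (F.X J ω), z' (slam F ⌊w' * J⌋₊ ω), F.W ω)))) :
    min M (f₂ + f₁' - f₁) ≤ f₂' := by
  have hmono : f₂ ≤ f₂' := by
    refine cel_le hne hpos (w := w') hf₂ (fun h hh τ hτ => ?_) he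
    refine (hb h hh τ hτ).mono 0 ?_
    rintro J - F A ⟨B, k1, k2, k3⟩
    exact ⟨B, k1, k2, k3.win (Nat.floor_le_floor (mul_le_mul_of_nonneg_right hww
      (Nat.cast_nonneg J)))⟩
  by_contra hcon
  push Not at hcon
  have hfM : f₂ ≤ M := by
    by_contra h
    push Not at h
    linarith [min_le_left M (f₂ + f₁' - f₁)]
  obtain ⟨D, hD⟩ : ∃ D, D = min M (f₂ + f₁' - f₁) - f₂' := ⟨_, rfl⟩
  have hD0 : 0 < D := by rw [hD]; linarith
  have hD1 : D ≤ M - f₂' := by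
    rw [hD]
    linarith [min_le_left M (f₂ + f₁' - f₁)]
  have hD2 : D ≤ f₂ + f₁' - f₁ - f₂' := by
    rw [hD]
    linarith [min_le_right M (f₂ + f₁' - f₁)]
  have hl2 : 1 / 2 < Real.log 2 := by
    have := Real.log_two_gt_d9
    linarith only [this]
  obtain ⟨κ, hκ, g1⟩ := Pool.ZFN.bas_sh (((hd (D / 16) (by linarith)).and
    (he (D / 16) (by linarith))).and hpos)
  obtain ⟨K, hK⟩ := ha (D / 16) (by linarith)
  have hKb := hb (D / 16) (by linarith)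
  have hKc := hc (D / 16) (by linarith)
  obtain ⟨Φ, hΦ⟩ : ∃ Φ : Fin 3 → Stat m, Φ = fun j J F B => match j with
      | 0 => LbR 1 F (insert k₁ I) k₂ K ⌊w * J⌋₊ ⌊(M - D / 16) * J⌋₊ B
      | 1 => Cel F I k₂ ⌊w * J⌋₊ ⌊(f₂ - D / 16) * J⌋₊ B
      | 2 => Cel F I k₁ ⌊w' * J⌋₊ ⌊(f₁' - D / 16) * J⌋₊ B := ⟨_, rfl⟩
  have g2 := Pool.BSM.bas_iter (S := S) (Φ := Φ) (fun j J F A B hB hh => by
      rw [hΦ] at hh ⊢
      match j with
      | 0 => exact LbR.sub hB hh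
      | 1 => exact Cel.sub hh hB
      | 2 => exact Cel.sub hh hB) (fun j τ hτ => by
      rw [hΦ]
      match j with
      | 0 => exact hK τ hτ
      | 1 => exact hKb τ hτ
      | 2 => exact hKc τ hτ) (half_pos hκ)
  obtain ⟨C, hC⟩ : ∃ C : ℝ, C = Real.log ((2 * K + 2 : ℕ)) + Real.log 27 := ⟨_, rfl⟩
  obtain ⟨J₁, hJ₁⟩ := exists_nat_gt (C / (D / 16))
  obtain ⟨J₂, hJ₂⟩ := exists_nat_gt (1 / (κ / 2))
  refine bas_no hne ((g1.and g2).mono (max J₁ J₂) ?_)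
  rintro J hJ F A ⟨k1, B, k2, k3, k4⟩
  have hJ0 : (0 : ℝ) ≤ J := Nat.cast_nonneg J
  have hJ1 : (J₁ : ℝ) ≤ J := by exact_mod_cast (le_max_left _ _).trans hJ
  have hJ2 : (J₂ : ℝ) ≤ J := by exact_mod_cast (le_max_right _ _).trans hJ
  replace hJ1 := hJ₁.trans_le hJ1
  replace hJ2 := hJ₂.trans_le hJ2
  rw [div_lt_iff₀ (by linarith)] at hJ1 hJ2
  rw [hΦ] at k4
  have l1 : LbR 1 F (insert k₁ I) k₂ K ⌊w * J⌋₊ ⌊(M - D / 16) * J⌋₊ B := k4 0
  have l2 : Cel F I k₂ ⌊w * J⌋₊ ⌊(f₂ - D / 16) * J⌋₊ B := k4 1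
  have l3 : Cel F I k₁ ⌊w' * J⌋₊ ⌊(f₁' - D / 16) * J⌋₊ B := k4 2
  obtain ⟨Γ, hΓ⟩ : ∃ Γ, Γ = Real.exp ((f₁ - f₂ + D / 4) * (Real.log 2 * J)) := ⟨_, rfl⟩
  have hΓ0 : 0 < Γ := by rw [hΓ]; exact Real.exp_pos _
  obtain ⟨BD, GD, V, z, z', lB, lG, m1, m2, m3, mc, m4, m5⟩ := lipcore h1 l1 l2 hΓ0
  obtain ⟨V₃, z₃, z₃', mc₃, m6⟩ := l3
  have haw : ⌊w * (J : ℝ)⌋₊ ≤ ⌊w' * (J : ℝ)⌋₊ :=
    Nat.floor_le_floor (mul_le_mul_of_nonneg_right hww hJ0)
  have haw1 : ⌊w' * (J : ℝ)⌋₊ ≤ J := Pool.GEN.fl_le hw1 J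
  have hPe := Pool.K2S.Pe_or F.isLaw m3
  have hA0 : 0 ≤ Pe F.p A := Pe_nonneg F.isLaw A
  have hhalf : ∀ B' : F.Ω → Prop, Pe F.p B ≤ 2 * Pe F.p B' →
      Real.exp (-(κ * J)) * Pe F.p A ≤ Pe F.p B' := by
    intro B' hB'
    have e1 : Real.exp (-(κ * J)) = Real.exp (-(κ / 2 * J)) * Real.exp (-(κ / 2 * J)) := by
      rw [← Real.exp_add]
      congr 1
      ring
    have e2 : 2 * Real.exp (-(κ / 2 * J)) ≤ 1 := by
      have e3 : 2 ≤ Real.exp (κ / 2 * J) := by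
        have := Real.add_one_le_exp (κ / 2 * (J : ℝ))
        linarith
      have e4 := mul_le_mul_of_nonneg_right e3 (Real.exp_pos (-(κ / 2 * (J : ℝ)))).le
      rwa [← Real.exp_add, add_neg_cancel, Real.exp_zero] at e4
    have e5 : 0 ≤ Real.exp (-(κ / 2 * J)) * Pe F.p A := by positivity
    rw [e1]
    nlinarith only [e2, e5, k3, hB', mul_le_mul_of_nonneg_right e2 e5]
  have hexp2 : (2 : ℝ) ^ J = Real.exp (Real.log 2 * J) := by
    rw [Real.exp_mul, Real.exp_log two_pos, Real.rpow_natCast]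
  have hLJ : 0 ≤ Real.log 2 * (J : ℝ) := mul_nonneg (by linarith) hJ0
  have i1 := inv_fl (M - D / 16) J
  have i2 := inv_fl (f₂ - D / 16) J
  have i3 := inv_fl (f₁' - D / 16) J
  have t2 : ∀ P : ℕ, (2 : ℝ) / 2 ^ P = 2 * (1 / 2 ^ P) := fun P => by ring
  have hend : C < D / 8 * (Real.log 2 * J) := by
    have : D / 8 * (1 / 2 * J) ≤ D / 8 * (Real.log 2 * J) :=
      mul_le_mul_of_nonneg_left (mul_le_mul_of_nonneg_right hl2.le hJ0) (by linarith)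
    linarith
  rcases le_or_gt (Pe F.p B) (2 * Pe F.p BD) with hcase | hcase
  · -- the steep part is large
    obtain ⟨⟨n1, -⟩, n2⟩ := k1 BD (fun ω hω => k2 ω (m1 ω hω)) (hhalf BD hcase)
    have hq := isLaw_cond F.isLaw n2
    have hqA : ∀ ω, 0 < Pool.Agent.H49.Ent.cond F.p BD True ω → BD ω := fun ω hω =>
      of_eq_true ((cond_pos_iff F.isLaw.nonneg BD True ω).1 hω).2
    obtain ⟨E, hE⟩ : ∃ E, E = (1 - f₁ + D / 16 - D / 4) * (Real.log 2 * J) := ⟨_, rfl⟩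
    have hE0 : 0 ≤ E := by
      rw [hE]
      exact mul_nonneg (by linarith) hLJ
    obtain ⟨L, hL⟩ : ∃ L : ℝ, L = 2 * (1 / 2 ^ ⌊(M - D / 16) * J⌋₊ +
      2 / 2 ^ ⌊(f₂ - D / 16) * J⌋₊) / Γ := ⟨_, rfl⟩
    have hL0 : 0 ≤ L := by rw [hL]; positivity
    have hx : (2 : ℝ) ^ J * L ≤ 12 * Real.exp E := by
      have e1 : Real.exp (-((M - D / 16) * (Real.log 2 * J))) ≤
          Real.exp (-((f₂ - D / 16) * (Real.log 2 * J))) := by
        refine Real.exp_le_exp.2 ?_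
        nlinarith only [mul_le_mul_of_nonneg_right hfM hLJ]
      have e2 : 2 * (1 / 2 ^ ⌊(M - D / 16) * J⌋₊ + 2 / 2 ^ ⌊(f₂ - D / 16) * J⌋₊) ≤
          12 * Real.exp (-((f₂ - D / 16) * (Real.log 2 * J))) := by
        rw [t2]
        linarith
      rw [hL]
      calc _ ≤ (2 : ℝ) ^ J * (12 * Real.exp (-((f₂ - D / 16) * (Real.log 2 * J))) / Γ) :=
            mul_le_mul_of_nonneg_left (div_le_div_of_nonneg_right e2 hΓ0.le) (by positivity)
        _ = 12 * Real.exp E := by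
            rw [hexp2, hΓ, hE, div_eq_mul_inv, ← Real.exp_neg]
            rw [show Real.exp (Real.log 2 * J) * (12 * Real.exp (-((f₂ - D / 16) *
              (Real.log 2 * J))) * Real.exp (-((f₁ - f₂ + D / 4) * (Real.log 2 * J)))) =
              12 * (Real.exp (Real.log 2 * J) * Real.exp (-((f₂ - D / 16) *
              (Real.log 2 * J))) * Real.exp (-((f₁ - f₂ + D / 4) * (Real.log 2 * J)))) by ring,
              ← Real.exp_add, ← Real.exp_add]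
            congr 2
            ring
    have n5 := (n1 V z z' fun ω hω => mc ω (m1 ω hω)).trans
      (CH_lab hq.nonneg hq.sum_one _ _ lB (L := 2 ^ J * L + 1) fun ω ω' hω hω' hcω hl => by
        have o1 := Prod.ext_iff.mp hcω
        have o2 := Prod.ext_iff.mp o1.2
        refine fl_le' ?_
        rw [hL]
        refine m4 ω ω' (hqA ω hω) (hqA ω' hω') (congrArg Prod.fst o2.2) o2.1 (fun i hi => ?_) hl
        have := congrFun o1.1 i
        simp only [ub, if_pos hi] at this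
        exact this)
    have n6 := log_bd' (by positivity) hx hE0
    have n7 : (1 - f₁ - D / 16) * Real.log 2 * J = E + D / 8 * (Real.log 2 * J) := by
      rw [hE]
      ring
    linarith only [n5, n6, n7, hend, hC]
  · -- the flat part is large
    obtain ⟨⟨-, n1⟩, n2⟩ := k1 GD (fun ω hω => k2 ω (m2 ω hω)) (hhalf GD (by linarith))
    have hq := isLaw_cond F.isLaw n2
    have hqA : ∀ ω, 0 < Pool.Agent.H49.Ent.cond F.p GD True ω → GD ω := fun ω hω =>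
      of_eq_true ((cond_pos_iff F.isLaw.nonneg GD True ω).1 hω).2
    obtain ⟨E, hE⟩ : ∃ E, E = (1 - f₂' - D + D / 16 + D / 4) * (Real.log 2 * J) := ⟨_, rfl⟩
    have hE0 : 0 ≤ E := by
      rw [hE]
      exact mul_nonneg (by linarith) hLJ
    obtain ⟨L, hL⟩ : ∃ L : ℝ, L = 2 / 2 ^ ⌊(M - D / 16) * J⌋₊ +
      Γ * (2 / 2 ^ ⌊(f₁' - D / 16) * J⌋₊) := ⟨_, rfl⟩
    have hL0 : 0 ≤ L := by rw [hL]; positivity
    have hx : (2 : ℝ) ^ J * L ≤ 12 * Real.exp E := by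
      have e1 : (2 : ℝ) ^ J * Real.exp (-((M - D / 16) * (Real.log 2 * J))) ≤ Real.exp E := by
        rw [hexp2, ← Real.exp_add, hE]
        refine Real.exp_le_exp.2 ?_
        have := mul_le_mul_of_nonneg_right (show 1 - (M - D / 16) ≤
          1 - f₂' - D + D / 16 + D / 4 by linarith) hLJ
        linarith only [this]
      have e2 : (2 : ℝ) ^ J * (Γ * Real.exp (-((f₁' - D / 16) * (Real.log 2 * J)))) ≤
          Real.exp E := by
        rw [hexp2, hΓ, ← Real.exp_add, ← Real.exp_add, hE]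
        refine Real.exp_le_exp.2 ?_
        have := mul_le_mul_of_nonneg_right (show 1 + (f₁ - f₂ + D / 4) - (f₁' - D / 16) ≤
          1 - f₂' - D + D / 16 + D / 4 by linarith) hLJ
        linarith only [this]
      have e3 : (2 : ℝ) ^ J * (2 * (1 / 2 ^ ⌊(M - D / 16) * J⌋₊)) ≤ 2 ^ J *
          (2 * (2 * Real.exp (-((M - D / 16) * (Real.log 2 * J))))) :=
        mul_le_mul_of_nonneg_left (by linarith) (by positivity)
      have e4 : (2 : ℝ) ^ J * (Γ * (2 * (1 / 2 ^ ⌊(f₁' - D / 16) * J⌋₊))) ≤ 2 ^ J *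
          (Γ * (2 * (2 * Real.exp (-((f₁' - D / 16) * (Real.log 2 * J)))))) :=
        mul_le_mul_of_nonneg_left (mul_le_mul_of_nonneg_left (by linarith) hΓ0.le) (by positivity)
      have e5 := Real.exp_pos E
      rw [hL, t2, t2, mul_add]
      linarith only [e1, e2, e3, e4, e5]
    have hco : ∀ ω, ((slam F ⌊w' * (J : ℝ)⌋₊ ω).1, (slam F ⌊w' * (J : ℝ)⌋₊ ω).2.1,
        (slam F ⌊w' * (J : ℝ)⌋₊ ω).2.2 / 2 ^ (⌊w' * (J : ℝ)⌋₊ - ⌊w * (J : ℝ)⌋₊)) =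
        slam F ⌊w * (J : ℝ)⌋₊ ω := fun ω => (slam_coarse F haw haw1 ω).symm
    have n5 := (n1 (V × V₃) (fun x => (z x, z₃ x)) (fun s =>
      (z' (s.1, s.2.1, s.2.2 / 2 ^ (⌊w' * (J : ℝ)⌋₊ - ⌊w * (J : ℝ)⌋₊)), z₃' s)) fun ω hω => by
        simp only [hco]
        exact Prod.ext (mc ω (m2 ω hω)) (mc₃ ω (m2 ω hω))).trans
      (CH_lab hq.nonneg hq.sum_one _ _ lG (L := 2 ^ J * L + 1) fun ω ω' hω hω' hcω hl => by
        have o1 := Prod.ext_iff.mp hcω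
        have o2 := Prod.ext_iff.mp o1.2
        have o3 := Prod.ext_iff.mp o2.1
        have o4 : z' (slam F ⌊w * (J : ℝ)⌋₊ ω) = z' (slam F ⌊w * (J : ℝ)⌋₊ ω') := by
          have := o3.1
          simp only [hco] at this
          exact this
        have oX : ∀ i ∈ I, F.X J ω i = F.X J ω' i := fun i hi => by
          have := congrFun o1.1 i
          simp only [ub, if_pos hi] at this
          exact this
        have oT : F.T ω = F.T ω' := congrArg Prod.fst o2.2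
        have o5 := m5 ω ω' (hqA ω hω) (hqA ω' hω') oT o4 oX hl
        have o6 := m6 ω ω' (m2 ω (hqA ω hω)) (m2 ω' (hqA ω' hω')) oT o3.2 oX
        refine fl_le' (o5.trans ?_)
        rw [hL]
        have := mul_le_mul_of_nonneg_left o6 hΓ0.le
        linarith)
    have n6 := log_bd' (by positivity) hx hE0
    have n7 : (1 - f₂' - D / 16) * Real.log 2 * J = E + 5 * (D / 8 * (Real.log 2 * J)) := by
      rw [hE]
      ring
    have n8 : 0 ≤ D / 8 * (Real.log 2 * J) := by positivity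
    linarith only [n5, n6, n7, n8, hend, hC]

end Pool.SWX
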