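import Pool.Agent.H25.SW.Ex
import Pool.Agent.H52.SUM.Cel

/-!
# The core of the exchange: Lipschitz part and steep part

`lipcore`: `k₂` is a polynomial of `k₁` and of the coordinates in `I` up to `2 ^ (-P₁)`, and is
known over `I` up to `2 * 2 ^ (-P₂)`. Then the event is the union of a part on which `k₁` is known
over `I` and of a part on which `k₂` is a Lipschitz function of `k₁`.
-/

set_option autoImplicit false

namespace Pool.SWX

open Finset Real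
open MvPolynomial (eval)
open Pool.Agent.H49.Ent Pool.Agent.H32.Dense Pool.STK Pool.KA Pool.KSAT Pool.K2S Pool.PB Pool.S6C
open Pool.GEN Pool.GRW Pool.TOP Pool.BSM

variable {m J : ℕ}

/-- **The core of the exchange.** -/
theorem lipcore {F : Fam m J} {B : F.Ω → Prop} {I : Finset (Fin m)} {k₁ k₂ : Fin m}
    (h1 : k₁ ∉ I) {K a₀ P₁ P₂ : ℕ} (hl₁ : LbR 1 F (insert k₁ I) k₂ K a₀ P₁ B)
    (hl₂ : Cel F I k₂ a₀ P₂ B) {Γ : ℝ} (hΓ : 0 < Γ) :
    ∃ (BD GD : F.Ω → Prop) (V : Type) (z : PtT F → V) (z' : LnT F → V)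
      (lB lG : F.Ω → Fin (2 * K + 2)), Sub BD B ∧ Sub GD B ∧ (∀ ω, B ω → BD ω ∨ GD ω) ∧
      (∀ ω, B ω → z (ptr F J ω) = z' (slam F a₀ ω)) ∧
      (∀ ω ω', BD ω → BD ω' → F.T ω = F.T ω' → z' (slam F a₀ ω) = z' (slam F a₀ ω') →
        (∀ i ∈ I, F.X J ω i = F.X J ω' i) → lB ω = lB ω' →
        |F.x ω k₁ - F.x ω' k₁| ≤ 2 * (1 / 2 ^ P₁ + 2 / 2 ^ P₂) / Γ) ∧
      (∀ ω ω', GD ω → GD ω' → F.T ω = F.T ω' → z' (slam F a₀ ω) = z' (slam F a₀ ω') →
        (∀ i ∈ I, F.X J ω i = F.X J ω' i) → lG ω = lG ω' →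
        |F.x ω k₂ - F.x ω' k₂| ≤ 2 / 2 ^ P₁ + Γ * |F.x ω k₁ - F.x ω' k₁|) := by
  classical
  obtain ⟨V₁, z₁, z₁', G₁, L₁⟩ := hl₁
  obtain ⟨V₂, z₂, z₂', L₂, L₂'⟩ := hl₂
  have hJ0 : (0 : ℝ) < 2 ^ J := by positivity
  -- the data
  obtain ⟨cc, hcc⟩ : ∃ cc : F.Ω → (Fin m → ℤ) × (V₁ × V₂) × (ℕ × Unit),
      cc = fun ω => (ub I (F.X J ω), (z₁' (slam F a₀ ω), z₂' (slam F a₀ ω)), (F.T ω, ())) :=
    ⟨_, rfl⟩
  have hceq : ∀ ω ω', F.T ω = F.T ω' → z₁' (slam F a₀ ω) = z₁' (slam F a₀ ω') →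
      z₂' (slam F a₀ ω) = z₂' (slam F a₀ ω') → (∀ i ∈ I, F.X J ω i = F.X J ω' i) →
      cc ω = cc ω' := by
    intro ω ω' e1 e2 e3 e4
    rw [hcc]
    refine Prod.ext (funext fun i => ?_) (Prod.ext (Prod.ext e2 e3) (Prod.ext e1 rfl))
    change ub I (F.X J ω) i = ub I (F.X J ω') i
    unfold ub
    by_cases hi : i ∈ I
    · rw [if_pos hi, if_pos hi, e4 i hi]
    · rw [if_neg hi, if_neg hi]
  have hcT : ∀ ω ω', cc ω = cc ω' → F.T ω = F.T ω' ∧ z₂' (slam F a₀ ω) = z₂' (slam F a₀ ω') ∧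
      ∀ i ∈ I, F.X J ω i = F.X J ω' i := by
    intro ω ω' h
    rw [hcc] at h
    have e1 := Prod.ext_iff.mp h
    have e2 := Prod.ext_iff.mp e1.2
    have e3 := Prod.ext_iff.mp e2.1
    refine ⟨congrArg Prod.fst e2.2, e3.2, fun i hi => ?_⟩
    have := congrFun e1.1 i
    simp only [ub, if_pos hi] at this
    exact this
  -- the reference value
  obtain ⟨y, hy⟩ : ∃ y : (Fin m → ℤ) × (V₁ × V₂) × (ℕ × Unit) → ℝ,
      ∀ ω, B ω → |F.x ω k₂ - y (cc ω)| ≤ 2 / 2 ^ P₂ := by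
    refine ⟨fun c => if h : ∃ ω, B ω ∧ cc ω = c then F.x h.choose k₂ else 0, fun ω hω => ?_⟩
    have h : ∃ ω', B ω' ∧ cc ω' = cc ω := ⟨ω, hω, rfl⟩
    simp only [dif_pos h]
    obtain ⟨e1, e2, e3⟩ := hcT _ _ h.choose_spec.2
    exact L₂' ω h.choose hω h.choose_spec.1 e1.symm e2.symm fun i hi => (e3 i hi).symm
  -- the polynomial
  obtain ⟨pp, hpp⟩ : ∃ pp : (Fin m → ℤ) × (V₁ × V₂) × (ℕ × Unit) → Polynomial ℝ,
      pp = fun c => onp k₁ (bas J c.1 c.2.2) (G₁ c.2.1.1) - Polynomial.C (y c) := ⟨_, rfl⟩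
  have hdeg : ∀ c, (pp c).natDegree ≤ K := by
    intro c
    rw [hpp]
    change Polynomial.natDegree (_ - Polynomial.C _) ≤ K
    rw [Polynomial.natDegree_sub_C]
    exact onp_deg _ _ (L₁.deg _)
  have hev : ∀ c x, (pp c).eval x = eval (Function.update (bas J c.1 c.2.2) (some k₁) x)
      (G₁ c.2.1.1) - y c := by
    intro c x
    rw [hpp]
    change Polynomial.eval x (_ - Polynomial.C _) = _
    rw [Polynomial.eval_sub, Polynomial.eval_C, onp_eval]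
  -- the corner of the cell
  have hfl : ∀ ω (i : Fin m), |(F.X J ω i : ℝ) / 2 ^ J - F.x ω i| ≤ 1 / 2 ^ J := by
    intro ω i
    change |((⌊(2 : ℝ) ^ J * F.x ω i⌋ : ℤ) : ℝ) / 2 ^ J - F.x ω i| ≤ _
    have e1 : ((⌊(2 : ℝ) ^ J * F.x ω i⌋ : ℤ) : ℝ) / 2 ^ J - F.x ω i =
        (((⌊(2 : ℝ) ^ J * F.x ω i⌋ : ℤ) : ℝ) - 2 ^ J * F.x ω i) / 2 ^ J := by
      field_simp
    rw [e1, abs_div, abs_of_pos hJ0]
    refine div_le_div_of_nonneg_right ?_ hJ0.le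
    have a1 := Int.floor_le ((2 : ℝ) ^ J * F.x ω i)
    have a2 := Int.lt_floor_add_one ((2 : ℝ) ^ J * F.x ω i)
    rw [abs_le]
    constructor <;> linarith
  have hG₁ : ∀ ω, B ω → |F.x ω k₂ - eval (Function.update (bas J (cc ω).1 (cc ω).2.2) (some k₁)
      (F.x ω k₁)) (G₁ (cc ω).2.1.1)| ≤ 1 / 2 ^ P₁ := by
    intro ω hω
    obtain ⟨b, hb⟩ : ∃ b : Option (Fin m) → ℝ, b = fun o => match o with
        | none => F.t ω
        | some i => if i ∈ I then (F.X J ω i : ℝ) / 2 ^ J else F.x ω i := ⟨_, rfl⟩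
    have hbn : b none = F.t ω := by rw [hb]
    have hbI : ∀ i ∈ I, b (some i) = (F.X J ω i : ℝ) / 2 ^ J := fun i hi => by
      rw [hb]
      exact if_pos hi
    have hbO : ∀ i ∉ I, b (some i) = F.x ω i := fun i hi => by
      rw [hb]
      exact if_neg hi
    have h2 := L₁.pos ω hω b fun o => by
      rcases o with - | i
      · rw [hbn]
        change |F.t ω - F.t ω| ≤ _
        rw [sub_self, abs_zero]
        positivity
      · by_cases hi : i ∈ I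
        · rw [hbI i hi]
          exact hfl ω i
        · rw [hbO i hi]
          change |F.x ω i - F.x ω i| ≤ _
          rw [sub_self, abs_zero]
          positivity
    have h3 : eval b (G₁ (z₁' (slam F a₀ ω))) = eval (Function.update
        (bas J (cc ω).1 (cc ω).2.2) (some k₁) (F.x ω k₁)) (G₁ (cc ω).2.1.1) := by
      have h4 : (cc ω).2.1.1 = z₁' (slam F a₀ ω) := by rw [hcc]
      rw [h4]
      refine L₁.dep _ _ _ ?_ fun i hi => ?_
      · rw [hbn, Function.update_of_ne (by simp), hcc]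
        rfl
      · rcases Finset.mem_insert.1 hi with h5 | h5
        · rw [h5, Function.update_self, hbO k₁ h1]
        · have h6 : i ≠ k₁ := fun h => h1 (h ▸ h5)
          rw [Function.update_of_ne (by simpa using h6), hbI i h5, hcc]
          change _ = ((ub I (F.X J ω) i : ℤ) : ℝ) / 2 ^ J
          unfold ub
          rw [if_pos h5]
    rw [h3] at h2
    exact h2
  have hsm : ∀ ω, B ω → |(pp (cc ω)).eval (F.x ω k₁)| ≤ 1 / 2 ^ P₁ + 2 / 2 ^ P₂ := by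
    intro ω hω
    rw [hev]
    have h2 := hG₁ ω hω
    have h3 := hy ω hω
    rw [abs_le] at h2 h3 ⊢
    constructor <;> linarith [h2.1, h2.2, h3.1, h3.2]
  choose ls hls using fun c => steep (pp c) hΓ (hdeg c)
  choose lf hlf using fun c => flat (pp c) hΓ (hdeg c)
  refine ⟨fun ω => B ω ∧ Γ < |(pp (cc ω)).derivative.eval (F.x ω k₁)|,
    fun ω => B ω ∧ |(pp (cc ω)).derivative.eval (F.x ω k₁)| ≤ Γ, V₁ × V₂,
    fun x => (z₁ x, z₂ x), fun s => (z₁' s, z₂' s), fun ω => ls (cc ω) (F.x ω k₁),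
    fun ω => lf (cc ω) (F.x ω k₁), fun ω hω => hω.1, fun ω hω => hω.1, fun ω hω => ?_,
    fun ω hω => Prod.ext (L₁.cls ω hω) (L₂ ω hω), fun ω ω' h2 h3 hT hz hX hl => ?_,
    fun ω ω' h2 h3 hT hz hX hl => ?_⟩
  · rcases lt_or_ge Γ |(pp (cc ω)).derivative.eval (F.x ω k₁)| with h2 | h2
    · exact Or.inl ⟨hω, h2⟩
    · exact Or.inr ⟨hω, h2⟩
  · have hz' := Prod.ext_iff.mp hz
    have hcω : cc ω' = cc ω := (hceq ω ω' hT hz'.1 hz'.2 hX).symm
    have h4 := hsm ω' h3.1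
    have h5 := h3.2
    simp only [hcω] at hl h4 h5
    exact hls (cc ω) _ _ _ (hsm ω h2.1) h4 h2.2 h5 hl
  · have hz' := Prod.ext_iff.mp hz
    have hcω : cc ω' = cc ω := (hceq ω ω' hT hz'.1 hz'.2 hX).symm
    have h5 := h3.2
    have h7 := hG₁ ω h2.1
    have h8 := hG₁ ω' h3.1
    simp only [hcω] at hl h5 h8
    have h6 := hlf (cc ω) _ _ h2.2 h5 hl
    rw [hev, hev] at h6
    have e2 : (2 : ℝ) / 2 ^ P₁ = 2 * (1 / 2 ^ P₁) := by ring
    rw [e2]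
    rw [abs_le] at h6 h7 h8
    rw [abs_le]
    constructor <;> linarith [h6.1, h6.2, h7.1, h7.2, h8.1, h8.2]

end Pool.SWX
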